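import Pool.Agent.N874.QM.Stm

/-!
# The extension is unramified at the primes which do not divide `δ` (statement S_UR)

Port of `Pool.Agent.N603.PM.UR` (helper603) from the base `k[X]` to the integers (helper222).
-/

set_option autoImplicit false
set_option linter.all false

open Polynomial IsDedekindDomain NumberField
open Pool.Agent.N783.PQ
open scoped Classical IntermediateField

namespace Pool.Agent.N222.QM.UR

open Pool.Agent.N874.QM

theorem core (A K L B : Type) [CommRing A] [IsDedekindDomain A] [Field K] [Algebra A K]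
    [IsFractionRing A K] [Field L] [Algebra K L] [CommRing B] [IsDedekindDomain B] [Algebra B L]
    [IsFractionRing B L] [Algebra A B] [Algebra A L] [IsScalarTower A K L] [IsScalarTower A B L]
    [FiniteDimensional K L] [Algebra.IsSeparable K L] [IsIntegralClosure B A L] (y : B)
    (hy : Algebra.adjoin K {algebraMap B L y} = ⊤) (P : HeightOneSpectrum B)
    (hP : aeval y (derivative (minpoly A y)) ∉ P.asIdeal) (v : HeightOneSpectrum A)
    [P.asIdeal.LiesOver v.asIdeal] (x : K) :
    P.valuation L (algebraMap K L x) = v.valuation K x := by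
  have hinjL : Function.Injective (algebraMap A L) := by
    rw [IsScalarTower.algebraMap_eq A K L]
    exact (algebraMap K L).injective.comp (IsFractionRing.injective A K)
  have hinj : Function.Injective (algebraMap A B) := by
    have h := hinjL
    rw [IsScalarTower.algebraMap_eq A B L] at h
    exact Function.Injective.of_comp h
  have : FaithfulSMul A B := (faithfulSMul_iff_algebraMap_injective A B).2 hinj
  have : Module.IsTorsionFree A B := inferInstance
  have : Module.Finite A B := IsIntegralClosure.finite A K L B
  let _ : Algebra (FractionRing A) (FractionRing B) := FractionRing.liftAlgebra A (FractionRing B)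
  have hsep : Algebra.IsSeparable (FractionRing A) (FractionRing B) := by
    refine Algebra.IsSeparable.of_equiv_equiv (FractionRing.algEquiv A K).symm.toRingEquiv
      (FractionRing.algEquiv B L).symm.toRingEquiv ?_
    apply IsLocalization.ringHom_ext (nonZeroDivisors A)
    ext a
    simp only [RingHom.coe_comp, RingHom.coe_coe, Function.comp_apply, AlgEquiv.coe_ringEquiv]
    rw [← IsScalarTower.algebraMap_apply A K L, IsScalarTower.algebraMap_apply A B L,
      AlgEquiv.commutes, AlgEquiv.commutes,
      ← IsScalarTower.algebraMap_apply A (FractionRing A) (FractionRing B),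
      ← IsScalarTower.algebraMap_apply A B (FractionRing B)]
  have hnd : ¬ P.asIdeal ∣ differentIdeal A B := by
    intro h
    exact hP (Ideal.dvd_iff_le.1 h (aeval_derivative_mem_differentIdeal A K L y hy))
  have hun : Algebra.IsUnramifiedAt A P.asIdeal := not_dvd_differentIdeal_iff.1 hnd
  have he : v.asIdeal.ramificationIdx' P.asIdeal = 1 := by
    rw [Ideal.ramificationIdx'_eq_ramificationIdx _ _ v.ne_bot]
    exact Ideal.ramificationIdx_eq_one_of_isUnramifiedAt
  have := HeightOneSpectrum.valuation_liesOver L v P x
  rw [he, pow_one] at this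
  exact this.symm

section gen

variable {F F' : Type} [Field F] [Field F'] [Algebra F F'] {γ : F'} {g : ℤ[X]} {δ : ℕ}

theorem int_γ (h : Gen F γ g δ) : IsIntegral ℤ γ := ⟨g, h.monic, h.root⟩

theorem fin (h : Gen F γ g δ) : FiniteDimensional F F' := by
  have h1 : IsIntegral F γ := (int_γ h).tower_top
  have h2 : FiniteDimensional F F⟮γ⟯ := IntermediateField.adjoin.finiteDimensional h1
  rw [h.top] at h2
  exact Module.Finite.equiv (IntermediateField.topEquiv (F := F) (E := F')).toLinearEquiv

theorem adj (h : Gen F γ g δ) : Algebra.adjoin F {γ} = ⊤ := by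
  have h1 : IsIntegral F γ := (int_γ h).tower_top
  have h2 := IntermediateField.adjoin_simple_toSubalgebra_of_isAlgebraic h1.isAlgebraic
  rw [← h2, h.top, IntermediateField.top_toSubalgebra]

end gen

section main

variable {F F' O O' : Type} [Field F] [Field F'] [Algebra F F'] [CharZero F]
  [CommRing O] [IsDedekindDomain O]
  [Algebra O F] [IsFractionRing O F]
  [CommRing O'] [IsDedekindDomain O'] [Algebra O' F'] [IsFractionRing O' F']
  [IsIntegralClosure O' ℤ F']
  [Algebra O F'] [IsScalarTower O F F'] [Algebra O O'] [IsScalarTower O O' F']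
  [IsIntegralClosure O' O F']
  {γ : F'} {g : ℤ[X]} {δ : ℕ}

theorem step (h : Gen F γ g δ) (P : HeightOneSpectrum O') (hP : (δ : O') ∉ P.asIdeal)
    (v : HeightOneSpectrum O) [P.asIdeal.LiesOver v.asIdeal] (x : F) :
    P.valuation F' (algebraMap F F' x) = v.valuation F x := by
  have : FiniteDimensional F F' := fin h
  have : Algebra.IsSeparable F F' := inferInstance
  obtain ⟨y, hy⟩ := (IsIntegralClosure.isIntegral_iff (R := ℤ) (A := O')).1 (int_γ h)
  have hadj : Algebra.adjoin F {algebraMap O' F' y} = ⊤ := by
    rw [hy]; exact adj h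
  refine core O F F' O' y hadj P ?_ v x
  intro hmem
  apply hP
  have hinj : Function.Injective (algebraMap O O') := by
    have h1 : Function.Injective (algebraMap O F') := by
      rw [IsScalarTower.algebraMap_eq O F F']
      exact (algebraMap F F').injective.comp (IsFractionRing.injective O F)
    rw [IsScalarTower.algebraMap_eq O O' F'] at h1
    exact Function.Injective.of_comp h1
  have : FaithfulSMul O O' := (faithfulSMul_iff_algebraMap_injective O O').2 hinj
  have : Module.IsTorsionFree O O' := inferInstance
  have hgy : aeval y g = 0 := by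
    apply IsFractionRing.injective O' F'
    rw [map_zero, ← Polynomial.aeval_algebraMap_apply, hy]
    exact h.root
  have hint : IsIntegral O y := IsIntegral.tower_top (R := ℤ) ⟨g, h.monic, hgy⟩
  have hdvd : minpoly O y ∣ g.map (algebraMap ℤ O) := by
    apply minpoly.isIntegrallyClosed_dvd hint
    rw [aeval_map_algebraMap]
    exact hgy
  obtain ⟨q, hq⟩ := hdvd
  have h1 : aeval y (derivative g) = aeval y (derivative (minpoly O y)) * aeval y q := by
    have h2 := congrArg (fun p : O[X] => aeval y (derivative p)) hq
    simp only [derivative_mul, map_add, map_mul, minpoly.aeval, zero_mul, add_zero] at h2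
    rw [← h2, derivative_map, aeval_map_algebraMap]
  obtain ⟨u, w, huw⟩ := h.comb
  have h3 := congrArg (aeval y) huw
  rw [map_add, map_mul, map_mul, hgy, mul_zero, zero_add, aeval_C, h1] at h3
  have h4 : (δ : O') = algebraMap ℤ O' (δ : ℤ) := by simp
  rw [h4, h3]
  exact Ideal.mul_mem_left _ _ (Ideal.mul_mem_right _ _ hmem)

end main

theorem ur : S_UR := by
  intro F F' _ _ _ _ _ γ g δ h
  have hinj : Function.Injective (algebraMap (𝓞 F) (𝓞 F')) :=
    FaithfulSMul.algebraMap_injective _ _
  have t7 : Algebra.IsIntegral (𝓞 F) (𝓞 F') := inferInstance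
  have t6 : IsIntegralClosure (𝓞 F') (𝓞 F) F' := inferInstance
  constructor
  · intro P hP
    have hp0 : P.asIdeal.under (𝓞 F) ≠ ⊥ := by
      intro h0
      exact P.ne_bot (Ideal.eq_bot_of_comap_eq_bot h0)
    let v : HeightOneSpectrum (𝓞 F) := ⟨P.asIdeal.under (𝓞 F), inferInstance, hp0⟩
    have hl : P.asIdeal.LiesOver v.asIdeal := ⟨rfl⟩
    exact ⟨v, fun x => step h P hP v x⟩
  · intro v hv
    obtain ⟨Q, -, hQp, hQ⟩ := Ideal.exists_ideal_over_prime_of_isIntegral (S := 𝓞 F') v.asIdeal ⊥
      (by
        intro x hx
        have h1 : algebraMap (𝓞 F) (𝓞 F') x = 0 := by simpa using hx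
        have h2 : x = 0 := hinj (by rw [h1, map_zero])
        rw [h2]
        exact zero_mem _)
    have hQ0 : Q ≠ ⊥ := by
      rintro rfl
      apply v.ne_bot
      rw [← hQ]
      exact (RingHom.injective_iff_ker_eq_bot _).1 hinj
    let P : HeightOneSpectrum (𝓞 F') := ⟨Q, hQp, hQ0⟩
    have hl : P.asIdeal.LiesOver v.asIdeal := ⟨hQ.symm⟩
    refine ⟨P, fun x => step h P ?_ v x⟩
    intro h1
    apply hv
    have h2 : ((δ : ℕ) : 𝓞 F') ∈ Q := h1
    show ((δ : ℕ) : 𝓞 F) ∈ v.asIdeal
    rw [← hQ]
    show algebraMap (𝓞 F) (𝓞 F') ((δ : ℕ) : 𝓞 F) ∈ Q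
    rw [map_natCast]
    exact h2

end Pool.Agent.N222.QM.UR
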